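import Pool.Agent.Helper28.Tg.Det
import Pool.Agent.Helper28.Tg.Defs3
import Pool.Graph.R_seed8.H4R2.LO.Weg2

/-! # Transport gap: from fixed energy to all energies of an interval, for pairs of boxes (part VRJ) -/

set_option autoImplicit false

open MeasureTheory Filter Topology
open scoped BigOperators ENNReal NNReal

namespace Pool.Agent.Helper36.Tg.Vrj

open Pool.Agent.H4R2.LO (Zd dd bx Hg L2f IsSpec PolyB IsGen Hm AL rs adj Near)
open Pool.Agent.H4R2.LO.Em (dd_self dd_comm dd_tri mem_bx card_bx)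
open Pool.Agent.H5R2.NB (PP)
open Pool.Agent.Helper28.Tg

/-- transfer of the decay between close energies -/
theorem transfer {d : ℕ} (x : Zd d) (l : ℕ) (V : Zd d → ℝ) (E E'' δ η' η r : ℝ) (hδ : 0 < δ)
    (hN : ¬ Near (Hm (AL (bx x l)) 1 (rs (bx x l) V) E) δ) (hE : |E'' - E| ≤ r)
    (hr : r ≤ δ / 2)
    (hη : η' * (1 + 2 * r / δ * (bx x l).card) + 2 * r / δ * (bx x l).card ≤ η)
    (h : Dc x l η' E'' V) : Dc x l η E V := by
  classical
  have hr0 : 0 ≤ r := (abs_nonneg _).trans hE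
  set A : Matrix (bx x l) (bx x l) ℝ := Hm (AL (bx x l)) 1 (rs (bx x l) V) E'' with hA
  have hN2 : ∀ f : bx x l → ℝ, f ≠ 0 → (δ / 2) ^ 2 * ∑ i, f i ^ 2 < ∑ i, (A.mulVec f i) ^ 2 := by
    intro f hf
    by_contra hc
    push Not at hc
    have h1 : Near (Hm (AL (bx x l)) 1 (rs (bx x l) V) E'') (δ / 2) := ⟨f, hf, hc⟩
    have h2 := Pool.Agent.H4R2.LO.Var.near_shift _ _ _ _ E _ h1 (hE.trans hr)
    rw [show 2 * (δ / 2) = δ by ring] at h2
    exact hN h2
  have hinj : Function.Injective A.mulVec := by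
    have h1 : Function.Injective A.mulVecLin := by
      rw [injective_iff_map_eq_zero]
      intro f hf
      by_contra hf0
      have h2 := hN2 f hf0
      have h3 : A.mulVec f = 0 := hf
      rw [h3] at h2
      simp only [Pi.zero_apply, ne_eq, OfNat.ofNat_ne_zero, not_false_eq_true, zero_pow,
        Finset.sum_const_zero] at h2
      have h4 : 0 ≤ (δ / 2) ^ 2 * ∑ i, f i ^ 2 :=
        mul_nonneg (sq_nonneg _) (Finset.sum_nonneg fun i _ => sq_nonneg _)
      linarith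
    exact h1
  have hsur : Function.Surjective A.mulVec :=
    Matrix.mulVec_surjective_iff_isUnit.2 (Matrix.mulVec_injective_iff_isUnit.1 hinj)
  intro ψ hψ b hb u hu
  have hb0 : 0 ≤ b := (abs_nonneg _).trans (hb x (by rw [dd_self]; omega))
  obtain ⟨χ, hχ⟩ := hsur fun w => (E'' - E) * ψ w
  set ρ : ℝ := 2 * r / δ * (bx x l).card with hρ
  have hρ0 : 0 ≤ ρ := by positivity
  -- the bound for the correction
  have hχb : ∀ i, |χ i| ≤ ρ * b := by
    intro i
    by_cases h0 : χ = 0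
    · rw [h0, Pi.zero_apply, abs_zero]
      positivity
    have h1 := hN2 χ h0
    rw [hχ] at h1
    have h2 : ∑ w : bx x l, ((E'' - E) * ψ w) ^ 2 ≤ (bx x l).card * (r * b) ^ 2 := by
      calc ∑ w : bx x l, ((E'' - E) * ψ w) ^ 2 ≤ ∑ _w : bx x l, (r * b) ^ 2 := by
            refine Finset.sum_le_sum fun w _ => ?_
            rw [← sq_abs ((E'' - E) * ψ w), abs_mul]
            have h3 := hb w (((mem_bx x w l).1 w.2).trans (by omega))
            gcongr
        _ = (bx x l).card * (r * b) ^ 2 := by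
            rw [Finset.sum_const, Finset.card_univ, Fintype.card_coe, nsmul_eq_mul]
    have h4 : χ i ^ 2 ≤ ∑ j, χ j ^ 2 :=
      Finset.single_le_sum (f := fun j => χ j ^ 2) (fun j _ => sq_nonneg _) (Finset.mem_univ i)
    have hc1 : (1 : ℝ) ≤ (bx x l).card := by
      have : 0 < (bx x l).card := Finset.card_pos.2 ⟨i.1, i.2⟩
      exact_mod_cast this
    have h5 : (δ / 2 * |χ i|) ^ 2 ≤ ((bx x l).card * (r * b)) ^ 2 := by
      calc (δ / 2 * |χ i|) ^ 2 = (δ / 2) ^ 2 * χ i ^ 2 := by rw [mul_pow, sq_abs]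
        _ ≤ (δ / 2) ^ 2 * ∑ j, χ j ^ 2 := by gcongr
        _ ≤ (bx x l).card * (r * b) ^ 2 := h1.le.trans h2
        _ ≤ (bx x l).card ^ 2 * (r * b) ^ 2 := by
            gcongr
            nlinarith
        _ = ((bx x l).card * (r * b)) ^ 2 := by ring
    have h6 := abs_le_of_sq_le_sq' h5 (by positivity)
    have h7 : δ / 2 * |χ i| ≤ (bx x l).card * (r * b) := h6.2
    rw [hρ]
    have h8 : |χ i| ≤ (bx x l).card * (r * b) / (δ / 2) := by
      rw [le_div_iff₀ (by positivity)]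
      linarith
    calc |χ i| ≤ (bx x l).card * (r * b) / (δ / 2) := h8
      _ = 2 * r / δ * (bx x l).card * b := by field_simp
  set X : Zd d → ℝ := fun y => if h : y ∈ bx x l then χ ⟨y, h⟩ else 0 with hX
  have hX0 : ∀ y, l < dd x y → X y = 0 := by
    intro y hy
    rw [hX]
    simp only []
    rw [dif_neg]
    rw [mem_bx]
    omega
  have hXb : ∀ y, |X y| ≤ ρ * b := by
    intro y
    rw [hX]
    simp only []
    split_ifs with hy
    · exact hχb _
    · rw [abs_zero]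
      positivity
  have hXe : ∀ w, dd x w ≤ l → Hr V X w - E'' * X w = (E'' - E) * ψ w := by
    intro w hw
    have h1 := Det.MM_real x l V E'' X hX0 ⟨w, (mem_bx x w l).2 hw⟩
    have h2 := congrFun hχ ⟨w, (mem_bx x w l).2 hw⟩
    rw [← h1, ← h2, Matrix.mulVec, dotProduct]
    refine Finset.sum_congr rfl fun y _ => ?_
    have h3 : X y = χ y := by
      rw [hX]
      simp only []
      rw [dif_pos y.2]
    rw [h3]
    rfl
  have hsum : ∀ w, dd x w ≤ l → Hr V (fun y => ψ y + X y) w = E'' * (ψ w + X w) := by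
    intro w hw
    have h1 := hψ w hw
    have h2 := hXe w hw
    have h3 : Hr V (fun y => ψ y + X y) w = Hr V ψ w + Hr V X w := by
      unfold Hr
      have h4 : ∑ i : Fin d, (ψ (w + Pi.single i 1) + X (w + Pi.single i 1) +
          (ψ (w - Pi.single i 1) + X (w - Pi.single i 1))) =
          ∑ i : Fin d, (ψ (w + Pi.single i 1) + ψ (w - Pi.single i 1)) +
          ∑ i : Fin d, (X (w + Pi.single i 1) + X (w - Pi.single i 1)) := by
        rw [← Finset.sum_add_distrib]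
        exact Finset.sum_congr rfl fun i _ => by ring
      rw [h4]
      ring
    rw [h3]
    linarith
  have h8 := h (fun y => ψ y + X y) hsum (b + ρ * b)
    (fun y hy => (abs_add_le _ _).trans (add_le_add (hb y hy) (hXb y))) u hu
  have h9 : |ψ u| ≤ |ψ u + X u| + |X u| := by
    have := abs_add_le (ψ u + X u) (-X u)
    rwa [abs_neg, show ψ u + X u + -X u = ψ u by ring] at this
  calc |ψ u| ≤ η' * (b + ρ * b) + ρ * b := h9.trans (add_le_add h8 (hXb u))
    _ = (η' * (1 + ρ) + ρ) * b := by ring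
    _ ≤ η * b := by gcongr

theorem pro_nat (k n : ℕ) : pro (k : ℝ) n = (((2 : ℝ) ^ n) ^ k)⁻¹ := by
  unfold pro
  rw [Real.rpow_neg (by norm_num), ← Nat.cast_mul, Real.rpow_natCast, pow_mul']

theorem dec_nat (q n : ℕ) : dec q n = (((2 : ℝ) ^ n) ^ q)⁻¹ := by
  unfold dec
  rw [pow_mul']

/-- the probability that a box is bad on a set of energies of length at least `r` -/
theorem exc {d : ℕ} (ν : Measure ℝ) [IsProbabilityMeasure ν] (B : Set ((Zd d → ℝ) × ℝ))
    (hB : IsOpen B) (p a b r : ℝ)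
    (hp : ∀ E ∈ Set.Icc a b, (PP d ν) {V | (V, E) ∈ B} ≤ ENNReal.ofReal p)
    (hp0 : 0 ≤ p) (hr : 0 < r) :
    (PP d ν) {V | ENNReal.ofReal r ≤ volume {E : ℝ | E ∈ Set.Ioo a b ∧ (V, E) ∈ B}} ≤
      ENNReal.ofReal (p * (b - a) / r) := by
  have : IsProbabilityMeasure (PP d ν) := by unfold PP; infer_instance
  have hG : MeasurableSet {z : (Zd d → ℝ) × ℝ | z.2 ∈ Set.Ioo a b ∧ z ∈ B} :=
    ((isOpen_Ioo.preimage continuous_snd).inter hB).measurableSet
  have h1 := Measure.prod_apply (μ := PP d ν) (ν := (volume : Measure ℝ)) hG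
  have h2 := Measure.prod_apply_symm (μ := PP d ν) (ν := (volume : Measure ℝ)) hG
  have h3 : ∫⁻ V, volume {E : ℝ | E ∈ Set.Ioo a b ∧ (V, E) ∈ B} ∂(PP d ν) ≤
      ENNReal.ofReal (p * (b - a)) := by
    have h4 : ∫⁻ V, volume {E : ℝ | E ∈ Set.Ioo a b ∧ (V, E) ∈ B} ∂(PP d ν) =
        ∫⁻ E : ℝ, (PP d ν) ((fun V => (V, E)) ⁻¹'
          {z : (Zd d → ℝ) × ℝ | z.2 ∈ Set.Ioo a b ∧ z ∈ B}) := by
      rw [← h2, h1]
      rfl
    rw [h4]
    calc ∫⁻ E : ℝ, (PP d ν) ((fun V => (V, E)) ⁻¹'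
          {z : (Zd d → ℝ) × ℝ | z.2 ∈ Set.Ioo a b ∧ z ∈ B})
        ≤ ∫⁻ E : ℝ, (Set.Ioo a b).indicator (fun _ => ENNReal.ofReal p) E := by
          refine lintegral_mono fun E => ?_
          by_cases hE : E ∈ Set.Ioo a b
          · rw [Set.indicator_of_mem hE]
            refine le_trans (measure_mono ?_) (hp E ⟨hE.1.le, hE.2.le⟩)
            intro V hV
            exact hV.2
          · rw [Set.indicator_of_notMem hE]
            refine le_of_eq ?_
            have h5 : ((fun V : Zd d → ℝ => (V, E)) ⁻¹'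
                {z : (Zd d → ℝ) × ℝ | z.2 ∈ Set.Ioo a b ∧ z ∈ B}) = ∅ := by
              ext V
              simp only [Set.mem_preimage, Set.mem_ofPred_eq, Set.mem_empty_iff_false, iff_false,
                not_and]
              intro h6
              exact absurd h6 hE
            rw [h5, measure_empty]
      _ = ENNReal.ofReal p * volume (Set.Ioo a b) := by
          rw [lintegral_indicator measurableSet_Ioo, setLIntegral_const]
      _ = ENNReal.ofReal (p * (b - a)) := by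
          rw [Real.volume_Ioo, ← ENNReal.ofReal_mul hp0]
  have hme : Measurable fun V : Zd d → ℝ => volume {E : ℝ | E ∈ Set.Ioo a b ∧ (V, E) ∈ B} :=
    measurable_measure_prodMk_left hG
  refine (meas_ge_le_lintegral_div hme.aemeasurable (ENNReal.ofReal_pos.2 hr).ne'
    ENNReal.ofReal_ne_top).trans ?_
  rw [ENNReal.ofReal_div_of_pos hr]
  exact ENNReal.div_le_div_right h3 _

/-- VRJ: from fixed energy to all energies of an interval, for pairs of boxes -/
theorem t_VRJ : St_VRJ := by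
  intro d hd C lo lo1 hi1 hi hlo hhi P q
  obtain ⟨a, ha⟩ : ∃ a : ℕ, a = 2 * d + P + 1 := ⟨_, rfl⟩
  obtain ⟨b, hb⟩ : ∃ b : ℕ, b = a + d + q + 3 := ⟨_, rfl⟩
  obtain ⟨M, hM⟩ : ∃ M : ℝ, M = |hi - lo| + |hi1 - lo1| + 1 := ⟨_, rfl⟩
  have hM1 : hi - lo ≤ M := by
    have h1 := le_abs_self (hi - lo)
    have h2 := abs_nonneg (hi1 - lo1)
    linarith
  have hM2 : |hi1 - lo1| + 1 ≤ M := by
    have h2 := abs_nonneg (hi - lo)
    linarith
  have hM0 : 1 ≤ M := by
    have h2 := abs_nonneg (hi1 - lo1)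
    linarith
  obtain ⟨N1, hN1⟩ : ∃ N1 : ℕ, 3 * M + 1 / (lo1 - lo) + 1 / (hi - hi1) ≤ N1 := exists_nat_ge _
  obtain ⟨N2, hN2⟩ : ∃ N2 : ℕ, 3 * (M * (768 * (C : ℝ) ^ 2 * 9 ^ d)) ≤ N2 :=
    exists_nat_ge _
  refine ⟨b + P + 2, q + 1, N1 + N2 + d + 2, ?_⟩
  intro ν _ hν n hn B hB x y hxy
  have hC : 0 < (C : ℝ) := by
    rcases (C.2 : (0 : ℝ) ≤ C).lt_or_eq with h | h
    · exact h
    · exfalso
      have hC0 : C = 0 := by
        apply NNReal.coe_injective
        rw [NNReal.coe_zero]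
        exact h.symm
      rw [hC0, zero_smul] at hν
      have h1 : ν Set.univ ≤ 0 := by simpa using hν Set.univ
      rw [measure_univ] at h1
      exact absurd h1 (by simp)
  have hν' : ν ≤ ENNReal.ofReal (C : ℝ) • (volume : Measure ℝ) := by
    rw [ENNReal.ofReal_coe_nnreal]
    exact hν
  -- the size of the box
  obtain ⟨t, ht⟩ : ∃ t : ℝ, t = 2 ^ n := ⟨_, rfl⟩
  have htn : ((N1 + N2 + d + 2 : ℕ) : ℝ) ≤ t := by
    rw [ht]
    have h1 : N1 + N2 + d + 2 ≤ 2 ^ n := hn.trans Nat.lt_two_pow_self.le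
    exact_mod_cast h1
  push_cast at htn
  have hN1' : (0 : ℝ) ≤ N1 := Nat.cast_nonneg _
  have hN2' : (0 : ℝ) ≤ N2 := Nat.cast_nonneg _
  have hd' : (0 : ℝ) ≤ d := Nat.cast_nonneg _
  have ht1 : 1 ≤ t := by linarith
  have ht0 : 0 < t := by linarith
  have htd : (4 : ℝ) ^ d * 16 ≤ t ^ 2 := by
    have h1 : (2 : ℝ) ^ (d + 2) ≤ t := by
      rw [ht]
      exact pow_le_pow_right₀ (by norm_num) (by omega)
    calc (4 : ℝ) ^ d * 16 = ((2 : ℝ) ^ (d + 2)) ^ 2 := by
          rw [show (4 : ℝ) = 2 ^ 2 by norm_num, show (16 : ℝ) = 2 ^ 4 by norm_num, ← pow_mul,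
            ← pow_add, ← pow_mul]
          congr 1
          ring
      _ ≤ t ^ 2 := by gcongr
  have hcard : ∀ z : Zd d, ((bx z (2 ^ n)).card : ℝ) ≤ 3 ^ d * t ^ d := by
    intro z
    rw [card_bx, ← mul_pow]
    push_cast
    rw [← ht]
    gcongr
    linarith
  obtain ⟨r, hr⟩ : ∃ r : ℝ, r = (t ^ b)⁻¹ := ⟨_, rfl⟩
  obtain ⟨δ, hδ⟩ : ∃ δ : ℝ, δ = (t ^ a)⁻¹ := ⟨_, rfl⟩
  have hr0 : 0 < r := by rw [hr]; positivity
  have hδ0 : 0 < δ := by rw [hδ]; positivity
  have hδ1 : δ ≤ 1 := by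
    rw [hδ]
    exact inv_le_one_of_one_le₀ (one_le_pow₀ ht1)
  have hrδ : r ≤ δ / 2 := by
    rw [hr, hδ, hb, show a + d + q + 3 = a + (d + q + 3) by ring, pow_add, mul_inv]
    have h1 : (t ^ (d + q + 3))⁻¹ ≤ 1 / 2 := by
      rw [inv_le_comm₀ (by positivity) (by norm_num)]
      calc (1 / 2 : ℝ)⁻¹ = 2 := by norm_num
        _ ≤ t := by linarith
        _ = t ^ 1 := (pow_one t).symm
        _ ≤ t ^ (d + q + 3) := pow_le_pow_right₀ ht1 (by omega)
    have h2 : 0 < (t ^ a)⁻¹ := by positivity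
    calc (t ^ a)⁻¹ * (t ^ (d + q + 3))⁻¹ ≤ (t ^ a)⁻¹ * (1 / 2) := by gcongr
      _ = (t ^ a)⁻¹ / 2 := by ring
  have hrt : r ≤ 1 / t := by
    rw [hr, one_div]
    refine inv_anti₀ ht0 ?_
    calc t = t ^ 1 := (pow_one t).symm
      _ ≤ t ^ b := pow_le_pow_right₀ ht1 (by omega)
  have hgap : ∀ g : ℝ, 0 < g → 1 / g ≤ t → r ≤ g := by
    intro g hg hgt
    refine hrt.trans ?_
    rw [div_le_iff₀ hg] at hgt
    rw [div_le_iff₀ ht0]
    linarith
  have hl1 : 0 < lo1 - lo := by linarith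
  have hl2 : 0 < hi - hi1 := by linarith
  have hl3 : 0 < 1 / (lo1 - lo) := by positivity
  have hl4 : 0 < 1 / (hi - hi1) := by positivity
  have hr1 : r ≤ lo1 - lo := hgap _ hl1 (by linarith)
  have hr2 : r ≤ hi - hi1 := hgap _ hl2 (by linarith)
  -- the decay
  have hη : ∀ z : Zd d, dec (q + 1) n * (1 + 2 * r / δ * (bx z (2 ^ n)).card) +
      2 * r / δ * (bx z (2 ^ n)).card ≤ dec q n := by
    intro z
    have h1 : 2 * r / δ * (bx z (2 ^ n)).card ≤ 1 / (8 * t * t ^ q) := by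
      have h2 : r / δ = 1 / (t ^ d * t ^ q * t ^ 3) := by
        rw [hr, hδ, hb, show a + d + q + 3 = a + (d + q + 3) by ring, pow_add, pow_add, pow_add]
        field_simp
      have h3 : (3 : ℝ) ^ d ≤ 4 ^ d := by gcongr; norm_num
      calc 2 * r / δ * (bx z (2 ^ n)).card = 2 * (r / δ) * (bx z (2 ^ n)).card := by ring
        _ ≤ 2 * (r / δ) * (3 ^ d * t ^ d) := by gcongr; exact hcard z
        _ = 2 * 3 ^ d / (t ^ q * t ^ 3) := by
            rw [h2]
            field_simp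
        _ ≤ 1 / (8 * t * t ^ q) := by
            rw [div_le_div_iff₀ (by positivity) (by positivity)]
            have h4 : 2 * (3 : ℝ) ^ d * 8 ≤ t ^ 2 := by linarith
            calc 2 * 3 ^ d * (8 * t * t ^ q) = 2 * 3 ^ d * 8 * (t * t ^ q) := by ring
              _ ≤ t ^ 2 * (t * t ^ q) := by gcongr
              _ = 1 * (t ^ q * t ^ 3) := by ring
    have h5 : 1 / (8 * t * t ^ q) ≤ 1 := by
      rw [div_le_one (by positivity)]
      have : 1 ≤ t ^ q := one_le_pow₀ ht1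
      nlinarith
    rw [dec_nat, dec_nat, ← ht]
    calc (t ^ (q + 1))⁻¹ * (1 + 2 * r / δ * (bx z (2 ^ n)).card) +
        2 * r / δ * (bx z (2 ^ n)).card ≤ (t ^ (q + 1))⁻¹ * (1 + 1) + 1 / (8 * t * t ^ q) := by
          gcongr
          exact h1.trans h5
      _ = (2 + 1 / 8) / t * (t ^ q)⁻¹ := by
          rw [pow_succ]
          field_simp
          ring
      _ ≤ 1 * (t ^ q)⁻¹ := by
          refine mul_le_mul_of_nonneg_right ?_ (by positivity)
          rw [div_le_one ht0]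
          linarith
      _ = (t ^ q)⁻¹ := one_mul _
  -- the exceptional sets
  set X1 : Zd d → Set (Zd d → ℝ) := fun z =>
    {V | ENNReal.ofReal r ≤ volume {E : ℝ | E ∈ Set.Ioo lo hi ∧ (V, E) ∈ B z}} with hX1
  set X2 : Set (Zd d → ℝ) := {V | ∃ E ∈ Set.Icc lo1 hi1,
    Near (Hm (AL (bx x (2 ^ n))) 1 (rs (bx x (2 ^ n)) V) E) δ ∧
    Near (Hm (AL (bx y (2 ^ n))) 1 (rs (bx y (2 ^ n)) V) E) δ} with hX2
  have hone : ∀ (z : Zd d) (V : Zd d → ℝ) (E : ℝ), E ∈ Set.Icc lo1 hi1 → V ∉ X1 z →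
      ¬ Near (Hm (AL (bx z (2 ^ n))) 1 (rs (bx z (2 ^ n)) V) E) δ →
      Dc z (2 ^ n) (dec q n) E V := by
    intro z V E hE hV hN
    have h1 : ∃ E'' ∈ Set.Ioo (E - r) (E + r), (V, E'') ∉ B z := by
      by_contra hc
      push Not at hc
      apply hV
      rw [hX1]
      have h2 : Set.Ioo (E - r) (E + r) ⊆ {E : ℝ | E ∈ Set.Ioo lo hi ∧ (V, E) ∈ B z} := by
        intro E'' hE''
        refine ⟨⟨?_, ?_⟩, hc E'' hE''⟩
        · linarith [hE''.1, hE.1]
        · linarith [hE''.2, hE.2]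
      calc ENNReal.ofReal r ≤ ENNReal.ofReal (E + r - (E - r)) :=
            ENNReal.ofReal_le_ofReal (by linarith)
        _ = volume (Set.Ioo (E - r) (E + r)) := Real.volume_Ioo.symm
        _ ≤ _ := measure_mono h2
    obtain ⟨E'', hE1, hE2⟩ := h1
    refine transfer z (2 ^ n) V E E'' δ (dec (q + 1) n) (dec q n) r hδ0 hN ?_ hrδ (hη z)
      (hB.dc z V E'' hE2)
    rw [abs_le]
    constructor <;> linarith [hE1.1, hE1.2]
  have hsub : TwoJ x y (2 ^ n) (dec q n) (Set.Icc lo1 hi1) ⊆ X1 x ∪ X1 y ∪ X2 := by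
    rintro V ⟨E, hE, hx, hy⟩
    by_contra hc
    rw [Set.mem_union, Set.mem_union] at hc
    push Not at hc
    obtain ⟨⟨h1, h2⟩, h3⟩ := hc
    by_cases h4 : Near (Hm (AL (bx x (2 ^ n))) 1 (rs (bx x (2 ^ n)) V) E) δ
    · by_cases h5 : Near (Hm (AL (bx y (2 ^ n))) 1 (rs (bx y (2 ^ n)) V) E) δ
      · exact h3 ⟨E, hE, h4, h5⟩
      · exact hy (hone y V E hE h2 h5)
    · exact hx (hone x V E hE h1 h4)
  -- the probabilities
  have hp1 : ∀ z, (PP d ν) (X1 z) ≤ ENNReal.ofReal (1 / 3 * (t ^ P)⁻¹) := by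
    intro z
    refine (exc ν (B z) (hB.op z) (pro ((b + P + 2 : ℕ) : ℝ) n) lo hi r (hB.pr z) ?_ hr0).trans ?_
    · rw [pro_nat]
      positivity
    · apply ENNReal.ofReal_le_ofReal
      rw [pro_nat, ← ht, hr]
      have h1 : (t ^ (b + P + 2))⁻¹ * (hi - lo) / (t ^ b)⁻¹ =
          (hi - lo) / t ^ 2 * (t ^ P)⁻¹ := by
        rw [pow_add, pow_add]
        field_simp
      rw [h1]
      refine mul_le_mul_of_nonneg_right ?_ (by positivity)
      rw [div_le_div_iff₀ (by positivity) (by norm_num)]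
      nlinarith
  have hp2 : (PP d ν) X2 ≤ ENNReal.ofReal (1 / 3 * (t ^ P)⁻¹) := by
    obtain ⟨K, hK⟩ : ∃ K : ℕ, K = ⌊|hi1 - lo1|⌋₊ + 1 := ⟨_, rfl⟩
    have hdis : Disjoint (bx x (2 ^ n)) (bx y (2 ^ n)) := by
      rw [Finset.disjoint_left]
      intro w h1 h2
      rw [mem_bx] at h1 h2
      have h3 := dd_tri x w y
      rw [dd_comm w y] at h3
      omega
    have h1 : X2 ⊆ ⋃ k ∈ Finset.range K, {V | ∃ E ∈ Set.Icc (lo1 + (k : ℝ)) (lo1 + k + 1),
        Near (Hm (AL (bx x (2 ^ n))) 1 (rs (bx x (2 ^ n)) V) E) δ ∧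
        Near (Hm (AL (bx y (2 ^ n))) 1 (rs (bx y (2 ^ n)) V) E) δ} := by
      rintro V ⟨E, hE, h2, h3⟩
      rw [Set.mem_iUnion₂]
      have h4 : 0 ≤ E - lo1 := by linarith [hE.1]
      have h5 := Nat.floor_le h4
      have h6 := Nat.lt_floor_add_one (E - lo1)
      refine ⟨⌊E - lo1⌋₊, Finset.mem_range.2 ?_, E, ⟨by linarith, by linarith⟩, h2, h3⟩
      rw [hK]
      refine Nat.lt_succ_of_le (Nat.floor_le_floor ?_)
      have h7 := le_abs_self (hi1 - lo1)
      linarith [hE.2]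
    have h2 : ∀ k : ℕ, (PP d ν) {V | ∃ E ∈ Set.Icc (lo1 + (k : ℝ)) (lo1 + k + 1),
        Near (Hm (AL (bx x (2 ^ n))) 1 (rs (bx x (2 ^ n)) V) E) δ ∧
        Near (Hm (AL (bx y (2 ^ n))) 1 (rs (bx y (2 ^ n)) V) E) δ} ≤
        ENNReal.ofReal (3 * (16 * C / 1) ^ 2 * δ * (bx x (2 ^ n)).card * (bx y (2 ^ n)).card) :=
      fun k => Pool.Agent.H4R2.LO.Var.weg2 d ν C hC hν' 1 one_pos _ _ hdis (lo1 + (k : ℝ)) δ hδ0 hδ1
    calc (PP d ν) X2 ≤ (PP d ν) (⋃ k ∈ Finset.range K,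
        {V | ∃ E ∈ Set.Icc (lo1 + (k : ℝ)) (lo1 + k + 1),
        Near (Hm (AL (bx x (2 ^ n))) 1 (rs (bx x (2 ^ n)) V) E) δ ∧
        Near (Hm (AL (bx y (2 ^ n))) 1 (rs (bx y (2 ^ n)) V) E) δ}) := measure_mono h1
      _ ≤ ∑ k ∈ Finset.range K, ENNReal.ofReal
          (3 * (16 * C / 1) ^ 2 * δ * (bx x (2 ^ n)).card * (bx y (2 ^ n)).card) :=
          (measure_biUnion_finset_le _ _).trans (Finset.sum_le_sum fun k _ => h2 k)
      _ = ENNReal.ofReal (K * (3 * (16 * C / 1) ^ 2 * δ * (bx x (2 ^ n)).card *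
          (bx y (2 ^ n)).card)) := by
          rw [Finset.sum_const, Finset.card_range, nsmul_eq_mul,
            ENNReal.ofReal_mul (Nat.cast_nonneg K), ENNReal.ofReal_natCast]
      _ ≤ ENNReal.ofReal (1 / 3 * (t ^ P)⁻¹) := by
          apply ENNReal.ofReal_le_ofReal
          have hK2 : (K : ℝ) ≤ M := by
            have := Nat.floor_le (abs_nonneg (hi1 - lo1))
            rw [hK]
            push_cast
            linarith
          calc (K : ℝ) * (3 * (16 * C / 1) ^ 2 * δ * (bx x (2 ^ n)).card * (bx y (2 ^ n)).card)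
              ≤ M * (3 * (16 * C / 1) ^ 2 * δ * (3 ^ d * t ^ d) * (3 ^ d * t ^ d)) := by
                gcongr
                · exact hcard x
                · exact hcard y
            _ = M * (768 * (C : ℝ) ^ 2 * 9 ^ d) / t * (t ^ P)⁻¹ := by
                rw [hδ, ha, show (9 : ℝ) ^ d = 3 ^ d * 3 ^ d by rw [← mul_pow]; norm_num,
                  show 2 * d + P + 1 = d + d + P + 1 by ring, pow_add, pow_add, pow_add]
                field_simp
                ring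
            _ ≤ 1 / 3 * (t ^ P)⁻¹ := by
                refine mul_le_mul_of_nonneg_right ?_ (by positivity)
                rw [div_le_div_iff₀ ht0 (by norm_num)]
                linarith
  calc (PP d ν) (TwoJ x y (2 ^ n) (dec q n) (Set.Icc lo1 hi1)) ≤
        (PP d ν) (X1 x ∪ X1 y ∪ X2) := measure_mono hsub
    _ ≤ (PP d ν) (X1 x) + (PP d ν) (X1 y) + (PP d ν) X2 :=
        (measure_union_le _ _).trans (add_le_add (measure_union_le _ _) le_rfl)
    _ ≤ ENNReal.ofReal (1 / 3 * (t ^ P)⁻¹) + ENNReal.ofReal (1 / 3 * (t ^ P)⁻¹) +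
        ENNReal.ofReal (1 / 3 * (t ^ P)⁻¹) := add_le_add (add_le_add (hp1 x) (hp1 y)) hp2
    _ = ENNReal.ofReal (pro P n) := by
        have h0 : 0 ≤ 1 / 3 * (t ^ P)⁻¹ := by positivity
        rw [← ENNReal.ofReal_add h0 h0, ← ENNReal.ofReal_add (by positivity) h0, pro_nat, ← ht]
        congr 1
        ring

end Pool.Agent.Helper36.Tg.Vrj
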