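import Pool.Agent.Helper28.Tg.Defs7
import Pool.Agent.Helper36.Tg.Vrj
import Pool.Agent.Helper82.Tg.Bts

/-! # Transport gap: from fixed energy to all energies of an interval, with open bad sets
(part VRE) -/

set_option autoImplicit false

open MeasureTheory Filter Topology
open scoped BigOperators ENNReal NNReal

namespace Pool.Agent.Helper36.Tg.Vre

open Pool.Agent.H4R2.LO (Zd dd bx Hg L2f IsSpec PolyB IsGen Hm AL rs adj Near)
open Pool.Agent.H4R2.LO.Em (dd_self dd_comm dd_tri mem_bx card_bx)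
open Pool.Agent.H5R2.NB (PP)
open Pool.Agent.Helper28.Tg
open Pool.Agent.Helper8.Stp (Res res_open res_loc)
open Pool.Agent.Helper36.Tg.Vrj (transfer exc pro_nat dec_nat)

/-- the measure of the sections of an open set is lower semicontinuous -/
theorem sec_open {d : ℕ} (B : Set ((Zd d → ℝ) × ℝ)) (hB : IsOpen B) (a b : ℝ) (r : ℝ≥0∞) :
    IsOpen {V : Zd d → ℝ | r < volume {E : ℝ | E ∈ Set.Ioo a b ∧ (V, E) ∈ B}} := by
  rw [isOpen_iff_mem_nhds]
  intro V hV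
  rw [Set.mem_ofPred_eq] at hV
  have hG : IsOpen {z : (Zd d → ℝ) × ℝ | z.2 ∈ Set.Ioo a b ∧ z ∈ B} :=
    (isOpen_Ioo.preimage continuous_snd).inter hB
  have hU : IsOpen {E : ℝ | E ∈ Set.Ioo a b ∧ (V, E) ∈ B} :=
    hG.preimage (Continuous.prodMk_right V)
  obtain ⟨K, hK1, hK2, hK3⟩ := hU.exists_lt_isCompact hV
  have h1 : ∀ᶠ V' in 𝓝 V, ∀ E ∈ K, E ∈ Set.Ioo a b ∧ (V', E) ∈ B := by
    refine hK2.eventually_forall_of_forall_eventually fun E hE => ?_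
    exact hG.mem_nhds (hK1 hE)
  filter_upwards [h1] with V' h2
  exact hK3.trans_le (measure_mono h2)

/-- a box without resonance at the level `2δ` is not almost singular at the level `δ` -/
theorem not_near {d : ℕ} (z : Zd d) (l : ℕ) (V : Zd d → ℝ) (E δ : ℝ) (hδ : 0 < δ)
    (h : (V, E) ∉ Res z l (2 * δ)) : ¬ Near (Hm (AL (bx z l)) 1 (rs (bx z l) V) E) δ := by
  rintro ⟨f, hf, h1⟩
  apply h
  refine ⟨f, lt_of_le_of_lt h1 ?_⟩
  have h2 : 0 < ∑ i, f i ^ 2 := by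
    obtain ⟨i, hi⟩ : ∃ i, f i ≠ 0 := by
      by_contra hc
      push Not at hc
      exact hf (funext hc)
    exact Finset.sum_pos' (fun j _ => sq_nonneg _) ⟨i, Finset.mem_univ i, by positivity⟩
  refine mul_lt_mul_of_pos_right ?_ h2
  nlinarith

/-- VRE: from fixed energy to all energies of an interval, with open bad sets -/
theorem t_VRE : St_VRE := by
  intro d hd C lo lo1 hi1 hi hlo hhi P q
  obtain ⟨a, ha⟩ : ∃ a : ℕ, a = 2 * d + P + 1 := ⟨_, rfl⟩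
  obtain ⟨b, hb⟩ : ∃ b : ℕ, b = a + d + q + 3 := ⟨_, rfl⟩
  obtain ⟨M, hM⟩ : ∃ M : ℝ, M = |hi - lo| + |hi1 - lo1| + 1 := ⟨_, rfl⟩
  have hM1 : hi - lo ≤ M := by
    have h1 := le_abs_self (hi - lo)
    have h2 := abs_nonneg (hi1 - lo1)
    linarith
  have hM2 : |hi1 - lo1| + 1 ≤ M := by
    have h2 := abs_nonneg (hi - lo)
    linarith
  have hM0 : 1 ≤ M := by
    have h2 := abs_nonneg (hi1 - lo1)
    linarith
  obtain ⟨N1, hN1⟩ : ∃ N1 : ℕ, 3 * M + 1 / (lo1 - lo) + 1 / (hi - hi1) ≤ N1 := exists_nat_ge _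
  obtain ⟨N2, hN2⟩ : ∃ N2 : ℕ, 3 * (M * (1536 * (C : ℝ) ^ 2 * 9 ^ d)) ≤ N2 :=
    exists_nat_ge _
  refine ⟨b + P + 2, q + 1, N1 + N2 + d + 2, ?_⟩
  intro ν _ hν n hn B hB
  have hC : 0 < (C : ℝ) := by
    rcases (C.2 : (0 : ℝ) ≤ C).lt_or_eq with h | h
    · exact h
    · exfalso
      have hC0 : C = 0 := by
        apply NNReal.coe_injective
        rw [NNReal.coe_zero]
        exact h.symm
      rw [hC0, zero_smul] at hν
      have h1 : ν Set.univ ≤ 0 := by simpa using hν Set.univ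
      rw [measure_univ] at h1
      exact absurd h1 (by simp)
  have hν' : ν ≤ ENNReal.ofReal (C : ℝ) • (volume : Measure ℝ) := by
    rw [ENNReal.ofReal_coe_nnreal]
    exact hν
  -- the size of the box
  obtain ⟨t, ht⟩ : ∃ t : ℝ, t = 2 ^ n := ⟨_, rfl⟩
  have htn : ((N1 + N2 + d + 2 : ℕ) : ℝ) ≤ t := by
    rw [ht]
    have h1 : N1 + N2 + d + 2 ≤ 2 ^ n := hn.trans Nat.lt_two_pow_self.le
    exact_mod_cast h1
  push_cast at htn
  have hN1' : (0 : ℝ) ≤ N1 := Nat.cast_nonneg _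
  have hN2' : (0 : ℝ) ≤ N2 := Nat.cast_nonneg _
  have hd' : (0 : ℝ) ≤ d := Nat.cast_nonneg _
  have ht1 : 1 ≤ t := by linarith
  have ht2 : 2 ≤ t := by linarith
  have ht0 : 0 < t := by linarith
  have htd : (4 : ℝ) ^ d * 16 ≤ t ^ 2 := by
    have h1 : (2 : ℝ) ^ (d + 2) ≤ t := by
      rw [ht]
      exact pow_le_pow_right₀ (by norm_num) (by omega)
    calc (4 : ℝ) ^ d * 16 = ((2 : ℝ) ^ (d + 2)) ^ 2 := by
          rw [show (4 : ℝ) = 2 ^ 2 by norm_num, show (16 : ℝ) = 2 ^ 4 by norm_num, ← pow_mul,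
            ← pow_add, ← pow_mul]
          congr 1
          ring
      _ ≤ t ^ 2 := by gcongr
  have hcard : ∀ z : Zd d, ((bx z (2 ^ n)).card : ℝ) ≤ 3 ^ d * t ^ d := by
    intro z
    rw [card_bx, ← mul_pow]
    push_cast
    rw [← ht]
    gcongr
    linarith
  obtain ⟨r, hr⟩ : ∃ r : ℝ, r = (t ^ b)⁻¹ := ⟨_, rfl⟩
  obtain ⟨δ, hδ⟩ : ∃ δ : ℝ, δ = (t ^ a)⁻¹ := ⟨_, rfl⟩
  have hr0 : 0 < r := by rw [hr]; positivity
  have hδ0 : 0 < δ := by rw [hδ]; positivity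
  have hδ1 : 2 * δ ≤ 1 := by
    rw [hδ]
    have h1 : (t ^ a)⁻¹ ≤ (t ^ 1)⁻¹ := by
      refine inv_anti₀ (by positivity) (pow_le_pow_right₀ ht1 (by omega))
    have h2 : (t ^ 1)⁻¹ ≤ 1 / 2 := by
      rw [pow_one, one_div]
      exact inv_anti₀ (by norm_num) ht2
    linarith
  have hrδ : r ≤ δ / 2 := by
    rw [hr, hδ, hb, show a + d + q + 3 = a + (d + q + 3) by ring, pow_add, mul_inv]
    have h1 : (t ^ (d + q + 3))⁻¹ ≤ 1 / 2 := by
      rw [inv_le_comm₀ (by positivity) (by norm_num)]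
      calc (1 / 2 : ℝ)⁻¹ = 2 := by norm_num
        _ ≤ t := by linarith
        _ = t ^ 1 := (pow_one t).symm
        _ ≤ t ^ (d + q + 3) := pow_le_pow_right₀ ht1 (by omega)
    have h2 : 0 < (t ^ a)⁻¹ := by positivity
    calc (t ^ a)⁻¹ * (t ^ (d + q + 3))⁻¹ ≤ (t ^ a)⁻¹ * (1 / 2) := by gcongr
      _ = (t ^ a)⁻¹ / 2 := by ring
  have hrt : r ≤ 1 / t := by
    rw [hr, one_div]
    refine inv_anti₀ ht0 ?_
    calc t = t ^ 1 := (pow_one t).symm
      _ ≤ t ^ b := pow_le_pow_right₀ ht1 (by omega)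
  have hgap : ∀ g : ℝ, 0 < g → 1 / g ≤ t → r ≤ g := by
    intro g hg hgt
    refine hrt.trans ?_
    rw [div_le_iff₀ hg] at hgt
    rw [div_le_iff₀ ht0]
    linarith
  have hl1 : 0 < lo1 - lo := by linarith
  have hl2 : 0 < hi - hi1 := by linarith
  have hl3 : 0 < 1 / (lo1 - lo) := by positivity
  have hl4 : 0 < 1 / (hi - hi1) := by positivity
  have hr1 : r ≤ lo1 - lo := hgap _ hl1 (by linarith)
  have hr2 : r ≤ hi - hi1 := hgap _ hl2 (by linarith)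
  -- the decay
  have hη : ∀ z : Zd d, dec (q + 1) n * (1 + 2 * r / δ * (bx z (2 ^ n)).card) +
      2 * r / δ * (bx z (2 ^ n)).card ≤ dec q n := by
    intro z
    have h1 : 2 * r / δ * (bx z (2 ^ n)).card ≤ 1 / (8 * t * t ^ q) := by
      have h2 : r / δ = 1 / (t ^ d * t ^ q * t ^ 3) := by
        rw [hr, hδ, hb, show a + d + q + 3 = a + (d + q + 3) by ring, pow_add, pow_add, pow_add]
        field_simp
      have h3 : (3 : ℝ) ^ d ≤ 4 ^ d := by gcongr; norm_num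
      calc 2 * r / δ * (bx z (2 ^ n)).card = 2 * (r / δ) * (bx z (2 ^ n)).card := by ring
        _ ≤ 2 * (r / δ) * (3 ^ d * t ^ d) := by gcongr; exact hcard z
        _ = 2 * 3 ^ d / (t ^ q * t ^ 3) := by
            rw [h2]
            field_simp
        _ ≤ 1 / (8 * t * t ^ q) := by
            rw [div_le_div_iff₀ (by positivity) (by positivity)]
            have h4 : 2 * (3 : ℝ) ^ d * 8 ≤ t ^ 2 := by linarith
            calc 2 * 3 ^ d * (8 * t * t ^ q) = 2 * 3 ^ d * 8 * (t * t ^ q) := by ring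
              _ ≤ t ^ 2 * (t * t ^ q) := by gcongr
              _ = 1 * (t ^ q * t ^ 3) := by ring
    have h5 : 1 / (8 * t * t ^ q) ≤ 1 := by
      rw [div_le_one (by positivity)]
      have : 1 ≤ t ^ q := one_le_pow₀ ht1
      nlinarith
    rw [dec_nat, dec_nat, ← ht]
    calc (t ^ (q + 1))⁻¹ * (1 + 2 * r / δ * (bx z (2 ^ n)).card) +
        2 * r / δ * (bx z (2 ^ n)).card ≤ (t ^ (q + 1))⁻¹ * (1 + 1) + 1 / (8 * t * t ^ q) := by
          gcongr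
          exact h1.trans h5
      _ = (2 + 1 / 8) / t * (t ^ q)⁻¹ := by
          rw [pow_succ]
          field_simp
          ring
      _ ≤ 1 * (t ^ q)⁻¹ := by
          refine mul_le_mul_of_nonneg_right ?_ (by positivity)
          rw [div_le_one ht0]
          linarith
      _ = (t ^ q)⁻¹ := one_mul _
  -- the exceptional sets
  obtain ⟨X, hX⟩ : ∃ X : Zd d → Set (Zd d → ℝ), X = fun z =>
    {V | ENNReal.ofReal r < volume {E : ℝ | E ∈ Set.Ioo lo hi ∧ (V, E) ∈ B z}} := ⟨_, rfl⟩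
  have hXo : ∀ z, IsOpen (X z) := by
    intro z
    rw [hX]
    exact sec_open (B z) (hB.op z) lo hi _
  have hone : ∀ (z : Zd d) (V : Zd d → ℝ) (E : ℝ), E ∈ Set.Icc lo1 hi1 → V ∉ X z →
      ¬ Near (Hm (AL (bx z (2 ^ n))) 1 (rs (bx z (2 ^ n)) V) E) δ →
      Dc z (2 ^ n) (dec q n) E V := by
    intro z V E hE hV hN
    have h1 : ∃ E'' ∈ Set.Ioo (E - r) (E + r), (V, E'') ∉ B z := by
      by_contra hc
      push Not at hc
      apply hV
      rw [hX]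
      have h2 : Set.Ioo (E - r) (E + r) ⊆ {E : ℝ | E ∈ Set.Ioo lo hi ∧ (V, E) ∈ B z} := by
        intro E'' hE''
        refine ⟨⟨?_, ?_⟩, hc E'' hE''⟩
        · linarith [hE''.1, hE.1]
        · linarith [hE''.2, hE.2]
      calc ENNReal.ofReal r < ENNReal.ofReal (E + r - (E - r)) :=
            (ENNReal.ofReal_lt_ofReal_iff (by linarith)).2 (by linarith)
        _ = volume (Set.Ioo (E - r) (E + r)) := Real.volume_Ioo.symm
        _ ≤ _ := measure_mono h2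
    obtain ⟨E'', hE1, hE2⟩ := h1
    refine transfer z (2 ^ n) V E E'' δ (dec (q + 1) n) (dec q n) r hδ0 hN ?_ hrδ (hη z)
      (hB.dc z V E'' hE2)
    rw [abs_le]
    constructor <;> linarith [hE1.1, hE1.2]
  -- the probabilities
  have hp1 : ∀ z, (PP d ν) (X z) ≤ ENNReal.ofReal (1 / 3 * (t ^ P)⁻¹) := by
    intro z
    have h0 : X z ⊆ {V | ENNReal.ofReal r ≤ volume {E : ℝ | E ∈ Set.Ioo lo hi ∧ (V, E) ∈ B z}} := by
      rw [hX]
      intro V hV
      have hV2 : ENNReal.ofReal r < volume {E : ℝ | E ∈ Set.Ioo lo hi ∧ (V, E) ∈ B z} := hV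
      exact hV2.le
    refine (measure_mono h0).trans ?_
    refine (exc ν (B z) (hB.op z) (pro ((b + P + 2 : ℕ) : ℝ) n) lo hi r (hB.pr z) ?_ hr0).trans ?_
    · rw [pro_nat]
      positivity
    · apply ENNReal.ofReal_le_ofReal
      rw [pro_nat, ← ht, hr]
      have h1 : (t ^ (b + P + 2))⁻¹ * (hi - lo) / (t ^ b)⁻¹ =
          (hi - lo) / t ^ 2 * (t ^ P)⁻¹ := by
        rw [pow_add, pow_add]
        field_simp
      rw [h1]
      refine mul_le_mul_of_nonneg_right ?_ (by positivity)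
      rw [div_le_div_iff₀ (by positivity) (by norm_num)]
      nlinarith
  have hp2 : ∀ x y : Zd d, 4 * 2 ^ n < dd x y → (PP d ν) {V | ∃ E ∈ Set.Icc lo1 hi1,
      (V, E) ∈ Res x (2 ^ n) (2 * δ) ∧ (V, E) ∈ Res y (2 ^ n) (2 * δ)} ≤
      ENNReal.ofReal (1 / 3 * (t ^ P)⁻¹) := by
    intro x y hxy
    refine (Pool.Agent.Helper82.Tg.res_two ν C hC hν' lo1 hi1 x y (2 ^ n) (2 ^ n) (by omega)
      (2 * δ) (by positivity) hδ1).trans (ENNReal.ofReal_le_ofReal ?_)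
    have h1 : (2 * ((2 ^ n : ℕ) : ℝ) + 1) ^ d ≤ 3 ^ d * t ^ d := by
      rw [← mul_pow]
      push_cast
      rw [← ht]
      gcongr
      linarith
    calc (|hi1 - lo1| + 1) * (768 * (C : ℝ) ^ 2 * (2 * δ) * (2 * ((2 ^ n : ℕ) : ℝ) + 1) ^ d *
          (2 * ((2 ^ n : ℕ) : ℝ) + 1) ^ d)
        ≤ M * (768 * (C : ℝ) ^ 2 * (2 * δ) * (3 ^ d * t ^ d) * (3 ^ d * t ^ d)) := by
          gcongr
      _ = M * (1536 * (C : ℝ) ^ 2 * 9 ^ d) / t * (t ^ P)⁻¹ := by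
          rw [hδ, ha, show (9 : ℝ) ^ d = 3 ^ d * 3 ^ d by rw [← mul_pow]; norm_num,
            show 2 * d + P + 1 = d + d + P + 1 by ring, pow_add, pow_add, pow_add]
          field_simp
          ring
      _ ≤ 1 / 3 * (t ^ P)⁻¹ := by
          refine mul_le_mul_of_nonneg_right ?_ (by positivity)
          rw [div_le_div_iff₀ ht0 (by norm_num)]
          linarith
  -- the new bad sets
  refine ⟨fun z => {p | p.2 ∉ Set.Icc lo1 hi1 ∨ p.1 ∈ X z ∨ p ∈ Res z (2 ^ n) (2 * δ)},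
    ⟨?_, ?_, ?_, ?_⟩⟩
  · intro x E
    have h1 : {V : Zd d → ℝ | (V, E) ∈ {p : (Zd d → ℝ) × ℝ | p.2 ∉ Set.Icc lo1 hi1 ∨
        p.1 ∈ X x ∨ p ∈ Res x (2 ^ n) (2 * δ)}} = {_V : Zd d → ℝ | E ∉ Set.Icc lo1 hi1} ∪
        (X x ∪ (fun V : Zd d → ℝ => (V, E)) ⁻¹' Res x (2 ^ n) (2 * δ)) := rfl
    rw [h1]
    have hcont : Continuous fun V : Zd d → ℝ => (V, E) := by fun_prop
    exact isOpen_const.union ((hXo x).union ((res_open _ _ _).preimage hcont))
  · intro x V V' E hVV hV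
    rcases hV with h | h | h
    · exact Or.inl h
    · refine Or.inr (Or.inl ?_)
      have h1 : {E : ℝ | E ∈ Set.Ioo lo hi ∧ (V, E) ∈ B x} ⊆
          {E : ℝ | E ∈ Set.Ioo lo hi ∧ (V', E) ∈ B x} := by
        intro E hE
        exact ⟨hE.1, hB.loc x V V' E hVV hE.2⟩
      change V ∈ X x at h
      change V' ∈ X x
      rw [hX] at h ⊢
      exact lt_of_lt_of_le h (measure_mono h1)
    · exact Or.inr (Or.inr (res_loc x (2 ^ n) (2 * δ) V V' E (fun y hy => hVV y (by omega)) h))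
  · intro x y hxy
    have hsub : {V | ∃ E ∈ Set.Icc lo1 hi1,
        (V, E) ∈ {p : (Zd d → ℝ) × ℝ | p.2 ∉ Set.Icc lo1 hi1 ∨ p.1 ∈ X x ∨
          p ∈ Res x (2 ^ n) (2 * δ)} ∧
        (V, E) ∈ {p : (Zd d → ℝ) × ℝ | p.2 ∉ Set.Icc lo1 hi1 ∨ p.1 ∈ X y ∨
          p ∈ Res y (2 ^ n) (2 * δ)}} ⊆ X x ∪ X y ∪ {V | ∃ E ∈ Set.Icc lo1 hi1,
      (V, E) ∈ Res x (2 ^ n) (2 * δ) ∧ (V, E) ∈ Res y (2 ^ n) (2 * δ)} := by
      rintro V ⟨E, hE, h1, h2⟩
      rcases h1 with h1 | h1 | h1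
      · exact absurd hE h1
      · exact Or.inl (Or.inl h1)
      · rcases h2 with h2 | h2 | h2
        · exact absurd hE h2
        · exact Or.inl (Or.inr h2)
        · exact Or.inr ⟨E, hE, h1, h2⟩
    calc (PP d ν) {V | ∃ E ∈ Set.Icc lo1 hi1,
        (V, E) ∈ {p : (Zd d → ℝ) × ℝ | p.2 ∉ Set.Icc lo1 hi1 ∨ p.1 ∈ X x ∨
          p ∈ Res x (2 ^ n) (2 * δ)} ∧
        (V, E) ∈ {p : (Zd d → ℝ) × ℝ | p.2 ∉ Set.Icc lo1 hi1 ∨ p.1 ∈ X y ∨
          p ∈ Res y (2 ^ n) (2 * δ)}} ≤ (PP d ν) (X x ∪ X y ∪ {V | ∃ E ∈ Set.Icc lo1 hi1,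
      (V, E) ∈ Res x (2 ^ n) (2 * δ) ∧ (V, E) ∈ Res y (2 ^ n) (2 * δ)}) := measure_mono hsub
      _ ≤ (PP d ν) (X x) + (PP d ν) (X y) + (PP d ν) {V | ∃ E ∈ Set.Icc lo1 hi1,
          (V, E) ∈ Res x (2 ^ n) (2 * δ) ∧ (V, E) ∈ Res y (2 ^ n) (2 * δ)} :=
          (measure_union_le _ _).trans (add_le_add (measure_union_le _ _) le_rfl)
      _ ≤ ENNReal.ofReal (1 / 3 * (t ^ P)⁻¹) + ENNReal.ofReal (1 / 3 * (t ^ P)⁻¹) +
          ENNReal.ofReal (1 / 3 * (t ^ P)⁻¹) :=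
          add_le_add (add_le_add (hp1 x) (hp1 y)) (hp2 x y hxy)
      _ = ENNReal.ofReal (pro P n) := by
          have h0 : 0 ≤ 1 / 3 * (t ^ P)⁻¹ := by positivity
          rw [← ENNReal.ofReal_add h0 h0, ← ENNReal.ofReal_add (by positivity) h0, pro_nat, ← ht]
          congr 1
          ring
  · intro x V E h
    have h1 : E ∈ Set.Icc lo1 hi1 := by
      by_contra hc
      exact h (Or.inl hc)
    have h2 : V ∉ X x := fun hc => h (Or.inr (Or.inl hc))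
    have h3 : (V, E) ∉ Res x (2 ^ n) (2 * δ) := fun hc => h (Or.inr (Or.inr hc))
    have h4 := hone x V E h1 h2 (not_near x (2 ^ n) V E δ hδ0 h3)
    intro ψ hψ β hβ
    have h5 := h4 ψ hψ β hβ x (by rw [dd_self, mul_zero]; exact Nat.zero_le _)
    have h6 : Real.exp (-(q * n * Real.log 2)) = dec q n := by
      rw [dec_nat, Real.exp_neg, ← pow_mul, ← Real.exp_log (show (0 : ℝ) < 2 ^ (n * q) by
        positivity), Real.log_pow]
      push_cast
      congr 2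
      ring
    rw [h6]
    exact h5

end Pool.Agent.Helper36.Tg.Vre
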