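import Pool.Agent.Helper36.Tg.Bst
import Pool.Agent.Helper28.Tg.Defs5

/-! # BSM: from one good scale to pure point spectrum and decay of the correlator, uniform form -/

set_option autoImplicit false

open MeasureTheory Filter Topology
open scoped BigOperators ENNReal NNReal InnerProductSpace ComplexConjugate

namespace Pool.Agent.Helper36.Tg.Bst

open Pool.Agent.H4R2.LO (Zd dd bx Hg L2f IsSpec PolyB IsGen)
open Pool.Agent.H5R2.NB (UG L2 dl IsGrp PP)
open Pool.Agent.Helper28.Tg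

/-- from arbitrarily large good scales, with a measurable majorant -/
theorem t_BSTm (hSTJ : St_STJ) (hFNJ : St_FNJ) (hVRJ : St_VRJ) (hDYM : St_DYM)
    (d : ℕ) (hd : 1 ≤ d) (C : ℝ≥0) (ν : Measure ℝ) [IsProbabilityMeasure ν] (hC : ν ≤ C • volume)
    (κ : ℝ) (hκ : 0 < κ) (hκ4 : κ ≤ 1 / 4) (a b : ℝ)
    (hgood : ∀ n0 : ℕ, ∃ (n : ℕ) (B : Zd d → Set ((Zd d → ℝ) × ℝ)), n0 ≤ n ∧
      Bg d ν (Set.Icc a b) (2 ^ n) (eta d n) (pro κ n) B) :
    (∀ᵐ V ∂(PP d ν), ∀ (x : Zd d) (m : Measure ℝ), IsSpec (-1) V (Pi.single x 1) m →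
      ∃ N : Set ℝ, N.Countable ∧ m (Set.Icc a b \ N) = 0) ∧
    ∀ a1 b1 : ℝ, a < a1 → b1 < b → ∀ P : ℕ, ∃ A : ℝ, 0 < A ∧ ∀ x y : Zd d,
      ∃ g : (Zd d → ℝ) → ℝ≥0∞, Measurable g ∧ (∀ V, corr V (Set.Icc a1 b1) x y ≤ g V) ∧
        ∫⁻ V, g V ∂(PP d ν) ≤ ENNReal.ofReal (A * (1 + ‖x - y‖) ^ (-(P : ℝ) / 2)) := by
  have hd1 : (1 : ℝ) ≤ d := by exact_mod_cast hd
  refine ⟨?_, ?_⟩
  · -- pure point spectrum
    obtain ⟨n0, hst⟩ := hSTJ d hd C κ hκ hκ4 (d + 1) (2 * d + 2) (2 * d + 2) le_rfl (by omega)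
    obtain ⟨N1, hN1⟩ := step_choice d (d + 1) hd (by omega) κ hκ hκ4
    choose! sf hsf using hN1
    set N := max (max n0 N1) 1 with hN
    obtain ⟨n, B, hn, hB⟩ := hgood N
    obtain ⟨nn, BB, h0, h1, h2, h3⟩ := scales ν (Set.Icc a b) (fun n => dec (2 * d + 2) n)
      (fun _ n => pro κ n) sf N (fun k n hn B hB => by
        have hsn := hsf n (by omega)
        refine hst ν hC (Set.Icc a b) n (sf n) (by omega) (by exact_mod_cast hsn.1)
          (by exact_mod_cast hsn.2.1) κ κ le_rfl (by linarith) ?_ B hB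
        push_cast
        linarith) n hn B hB
    refine hFNJ d hd ν C hC a b κ hκ nn (fun k => by have := h1 k; omega) (fun k => ?_)
      (fun k => ?_) (fun k => ?_) (2 * d + 2) le_rfl BB h3
    · have := (hsf (nn k) (by have := h1 k; omega)).2.2.1
      rw [h2 k]; omega
    · have := (hsf (nn k) (by have := h1 k; omega)).2.2.2.1
      rw [h2 k]; omega
    · have h4 := (hsf (nn k) (by have := h1 k; omega)).2.2.2.2
      have h5 : nn (k + 1) - nn k = sf (nn k) := by rw [h2 k]; omega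
      rw [h5]
      exact h4
  · -- decay of the correlator
    intro a1 b1 ha1 hb1 P
    obtain ⟨P', q', nV, hvr⟩ := hVRJ d hd C a a1 b1 b ha1 hb1 P (P + d)
    set m2 : ℕ := P' + d + 1 with hm2
    set Q : ℕ := max q' (m2 + d + 1) with hQ
    obtain ⟨nA, hstA⟩ := hSTJ d hd C κ hκ hκ4 (d + 1) (2 * d + 2) Q le_rfl (by omega)
    obtain ⟨nB, hstB⟩ := hSTJ d hd C κ hκ hκ4 m2 Q Q (by omega) (by omega)
    obtain ⟨N1, hN1⟩ := step_choice d (d + 1) hd (by omega) κ hκ hκ4
    obtain ⟨N2, hN2⟩ := step_choice d m2 hd (by omega) κ hκ hκ4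
    choose! sf hsf using hN2
    set N := max (max (max nA nB) (max N1 N2)) (max nV 1) with hN
    obtain ⟨n, B, hn, hB⟩ := hgood N
    -- the first step
    obtain ⟨s, hs1, hs2, hs3, hs4, -⟩ := hN1 n (by omega)
    obtain ⟨B1, hB1⟩ := hstA ν hC (Set.Icc a b) n s (by omega) (by exact_mod_cast hs1)
      (by exact_mod_cast hs2) κ κ le_rfl (by linarith) (by push_cast; linarith) B hB
    -- the exponents
    set P'' : ℝ := max (P' : ℝ) κ with hP''
    have hP0 : 0 ≤ P'' := (Nat.cast_nonneg P').trans (le_max_left _ _)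
    set e : ℕ → ℝ := fun k => min ((5 / 4 : ℝ) ^ k * κ) P'' with he
    have he1 : ∀ k, κ ≤ e k := by
      intro k
      refine le_min ?_ (le_max_right _ _)
      have : (1 : ℝ) ≤ (5 / 4) ^ k := one_le_pow₀ (by norm_num)
      nlinarith
    have he2 : ∀ k, e (k + 1) ≤ 5 / 4 * e k := by
      intro k
      rw [he]
      simp only
      rcases le_total ((5 / 4 : ℝ) ^ k * κ) P'' with h | h
      · rw [min_eq_left h]
        refine (min_le_left _ _).trans (le_of_eq ?_)
        ring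
      · rw [min_eq_right h]
        refine (min_le_right _ _).trans ?_
        linarith
    have he3 : ∀ k, e k ≤ m2 - d - 1 / 2 := by
      intro k
      refine (min_le_right _ _).trans ?_
      rw [hm2]
      push_cast
      refine max_le (by linarith) ?_
      have : (0 : ℝ) ≤ P' := Nat.cast_nonneg _
      linarith
    have hB1' : Bg d ν (Set.Icc a b) (2 ^ (n + s)) (dec Q (n + s)) (pro (e 0) (n + s)) B1 := by
      refine Bg_mono hB1 le_rfl (pro_mono ?_ _)
      rw [he]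
      simp only [pow_zero, one_mul]
      exact min_le_left _ _
    obtain ⟨nn, BB, h0, h1, h2, h3⟩ := scales ν (Set.Icc a b) (fun n => dec Q n)
      (fun k n => pro (e k) n) sf N (fun k n hn B hB => by
        have hsn := hsf n (by omega)
        exact hstB ν hC (Set.Icc a b) n (sf n) (by omega) hsn.1 hsn.2.1 (e k) (e (k + 1)) (he1 k)
          (he2 k) (he3 (k + 1)) B hB) (n + s) (by omega) B1 hB1'
    -- eventually the exponent is at least P'
    obtain ⟨k0, hk0⟩ : ∃ k0 : ℕ, P'' / κ < (5 / 4 : ℝ) ^ k0 :=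
      pow_unbounded_of_one_lt _ (by norm_num)
    have hk : ∀ k, (P' : ℝ) ≤ e (k + k0) := by
      intro k
      refine le_min ?_ (le_max_left _ _)
      have h4 : P'' < (5 / 4 : ℝ) ^ k0 * κ := by rwa [div_lt_iff₀ hκ] at hk0
      have h5 : (5 / 4 : ℝ) ^ k0 ≤ (5 / 4 : ℝ) ^ (k + k0) :=
        pow_le_pow_right₀ (by norm_num) (by omega)
      have h6 : (P' : ℝ) ≤ P'' := le_max_left _ _
      nlinarith
    refine hDYM d hd ν (Set.Icc a1 b1) (fun k => nn (k + k0)) (fun k => ?_) (fun k => ?_) P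
      (fun k x y hxy => ?_)
    · have := (hsf (nn (k + k0)) (by have := h1 (k + k0); omega)).2.2.1
      have h7 : nn (k + 1 + k0) = nn (k + k0) + sf (nn (k + k0)) := by
        rw [show k + 1 + k0 = k + k0 + 1 by ring, h2]
      simp only [h7]; omega
    · have := (hsf (nn (k + k0)) (by have := h1 (k + k0); omega)).2.2.2.1
      have h7 : nn (k + 1 + k0) = nn (k + k0) + sf (nn (k + k0)) := by
        rw [show k + 1 + k0 = k + k0 + 1 by ring, h2]
      simp only [h7]; omega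
    · refine hvr ν hC (nn (k + k0)) (by have := h1 (k + k0); omega) (BB (k + k0)) ?_ x y hxy
      exact Bg_mono (h3 (k + k0)) (dec_mono (le_max_left _ _) _) (pro_mono (hk k) _)

/-- BSM -/
theorem t_BSM (hSTJ : St_STJ) (hFNJ : St_FNJ) (hVRJ : St_VRJ) (hDYM : St_DYM) : St_BSM := by
  intro d hd C κ hκ hκ4
  obtain ⟨n0, hst⟩ := hSTJ d hd C κ hκ hκ4 (d + 1) (2 * d + 2) (2 * d + 2) le_rfl (by omega)
  obtain ⟨N1, hN1⟩ := step_choice d (d + 1) hd (by omega) κ hκ hκ4
  choose! sf hsf using hN1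
  set N := max (max n0 N1) 1 with hN
  refine ⟨N, fun ν _ hC a b n hn B hB => ?_⟩
  obtain ⟨nn, BB, h0, h1, h2, h3⟩ := scales ν (Set.Icc a b) (fun n => dec (2 * d + 2) n)
    (fun _ n => pro κ n) sf N (fun k n hn B hB => by
      have hsn := hsf n (by omega)
      refine hst ν hC (Set.Icc a b) n (sf n) (by omega) (by exact_mod_cast hsn.1)
        (by exact_mod_cast hsn.2.1) κ κ le_rfl (by linarith) ?_ B hB
      push_cast
      linarith) n hn B hB
  have hgr : ∀ k, k ≤ nn k := by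
    intro k
    induction k with
    | zero => omega
    | succ k ih =>
      have := (hsf (nn k) (by have := h1 k; omega)).2.2.1
      rw [h2 k]; omega
  exact t_BSTm hSTJ hFNJ hVRJ hDYM d hd C ν hC κ hκ hκ4 a b
    (fun n1 => ⟨nn n1, BB n1, hgr n1, h3 n1⟩)

end Pool.Agent.Helper36.Tg.Bst
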