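import Pool.Agent.Helper28.Tg.Defs4

/-! # BST: from one good scale to pure point spectrum and decay of the correlator -/

set_option autoImplicit false

open MeasureTheory Filter Topology
open scoped BigOperators ENNReal NNReal InnerProductSpace ComplexConjugate

namespace Pool.Agent.Helper36.Tg.Bst

open Pool.Agent.H4R2.LO (Zd dd bx Hg L2f IsSpec PolyB IsGen)
open Pool.Agent.H5R2.NB (UG L2 dl IsGrp PP)
open Pool.Agent.Helper28.Tg

theorem dec_pos (q n : ℕ) : 0 < dec q n := by unfold dec; positivity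

theorem pro_mono {p p' : ℝ} (h : p ≤ p') (n : ℕ) : pro p' n ≤ pro p n := by
  unfold pro
  apply Real.rpow_le_rpow_of_exponent_le (by norm_num)
  have : (0 : ℝ) ≤ n := Nat.cast_nonneg _
  nlinarith

theorem dec_mono {q q' : ℕ} (h : q ≤ q') (n : ℕ) : dec q' n ≤ dec q n := by
  unfold dec
  apply inv_anti₀ (by positivity)
  exact pow_le_pow_right₀ (by norm_num) (Nat.mul_le_mul_right _ h)

theorem dd_self' {d : ℕ} (x : Zd d) : dd x x = 0 := by
  simp [dd]

theorem Dc_mono {d : ℕ} {x : Zd d} {l : ℕ} {η η' E : ℝ} {V : Zd d → ℝ} (h : η ≤ η')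
    (hD : Dc x l η E V) : Dc x l η' E V := by
  intro ψ hψ b hb u hu
  have hb0 : 0 ≤ b := (abs_nonneg _).trans (hb x (by rw [dd_self']; omega))
  exact (hD ψ hψ b hb u hu).trans (mul_le_mul_of_nonneg_right h hb0)

theorem Bg_mono {d : ℕ} {ν : Measure ℝ} [IsProbabilityMeasure ν] {J : Set ℝ} {l : ℕ}
    {η η' p p' : ℝ} {B : Zd d → Set ((Zd d → ℝ) × ℝ)} (h : Bg d ν J l η p B) (hη : η ≤ η')
    (hp : p ≤ p') : Bg d ν J l η' p' B :=
  ⟨h.op, h.loc, fun x E hE => (h.pr x E hE).trans (ENNReal.ofReal_le_ofReal hp),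
    fun x V E hV => Dc_mono hη (h.dc x V E hV)⟩

/-- a sequence of scales from a step, with varying probability exponents -/
theorem scales {d : ℕ} (ν : Measure ℝ) [IsProbabilityMeasure ν] (J : Set ℝ) (dcy : ℕ → ℝ)
    (prb : ℕ → ℕ → ℝ) (sf : ℕ → ℕ) (N : ℕ)
    (hstep : ∀ k n, N ≤ n → ∀ B : Zd d → Set ((Zd d → ℝ) × ℝ),
      Bg d ν J (2 ^ n) (dcy n) (prb k n) B →
      ∃ B' : Zd d → Set ((Zd d → ℝ) × ℝ), Bg d ν J (2 ^ (n + sf n)) (dcy (n + sf n))
        (prb (k + 1) (n + sf n)) B') (n0 : ℕ) (hn0 : N ≤ n0) (B0 : Zd d → Set ((Zd d → ℝ) × ℝ))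
    (hB0 : Bg d ν J (2 ^ n0) (dcy n0) (prb 0 n0) B0) :
    ∃ (n : ℕ → ℕ) (B : ℕ → Zd d → Set ((Zd d → ℝ) × ℝ)), n 0 = n0 ∧ (∀ k, N ≤ n k) ∧
      (∀ k, n (k + 1) = n k + sf (n k)) ∧
      ∀ k, Bg d ν J (2 ^ n k) (dcy (n k)) (prb k (n k)) (B k) := by
  let S : ℕ → Type := fun k => {p : ℕ × (Zd d → Set ((Zd d → ℝ) × ℝ)) //
    N ≤ p.1 ∧ Bg d ν J (2 ^ p.1) (dcy p.1) (prb k p.1) p.2}
  have h1 : ∀ k, ∀ p : S k, ∃ q : S (k + 1), q.1.1 = p.1.1 + sf p.1.1 := by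
    intro k p
    obtain ⟨B', hB'⟩ := hstep k p.1.1 p.2.1 p.1.2 p.2.2
    exact ⟨⟨(p.1.1 + sf p.1.1, B'), by have := p.2.1; simp only; omega, hB'⟩, rfl⟩
  choose g hg using h1
  let p0 : S 0 := ⟨(n0, B0), hn0, hB0⟩
  let f : ∀ k, S k := fun k => Nat.rec p0 (fun k p => g k p) k
  exact ⟨fun k => (f k).1.1, fun k => (f k).1.2, rfl, fun k => (f k).2.1,
    fun k => hg k (f k), fun k => (f k).2.2⟩

/-- the floor function for the step -/
theorem floor_step (τ : ℝ) (hτ : 0 < τ) (n : ℕ) (hn : 2 / τ ≤ n) :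
    (⌊τ * n⌋₊ : ℝ) ≤ τ * n ∧ τ * n / 2 ≤ (⌊τ * n⌋₊ : ℝ) ∧ 1 ≤ ⌊τ * n⌋₊ := by
  have h1 : 2 ≤ τ * n := by
    rw [div_le_iff₀ hτ] at hn
    linarith
  have h2 : (⌊τ * n⌋₊ : ℝ) ≤ τ * n := Nat.floor_le (by linarith)
  have h3 : τ * n < (⌊τ * n⌋₊ : ℝ) + 1 := Nat.lt_floor_add_one _
  refine ⟨h2, by linarith, ?_⟩
  exact Nat.le_floor (by push_cast; linarith)

/-- the choice of the step -/
theorem step_choice (d m : ℕ) (hd : 1 ≤ d) (hm : 1 ≤ m) (κ : ℝ) (hκ : 0 < κ) (hκ4 : κ ≤ 1 / 4) :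
    ∃ N1 : ℕ, ∀ n : ℕ, N1 ≤ n → ∃ s : ℕ, (s : ℝ) ≤ κ / (16 * d * m) * n ∧
      κ / (32 * d * m) * n ≤ s ∧ 1 ≤ s ∧ s ≤ n ∧ (s : ℝ) * d ≤ κ / 4 * n := by
  have hd1 : (1 : ℝ) ≤ d := by exact_mod_cast hd
  have hm1 : (1 : ℝ) ≤ m := by exact_mod_cast hm
  have hd0 : (0 : ℝ) < d := by linarith
  have hm0 : (0 : ℝ) < m := by linarith
  set τ : ℝ := κ / (16 * d * m) with hτ
  have hτ0 : 0 < τ := by positivity
  obtain ⟨N1, hN1⟩ : ∃ N1 : ℕ, 2 / τ ≤ N1 := exists_nat_ge _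
  refine ⟨N1, fun n hn => ⟨⌊τ * n⌋₊, ?_⟩⟩
  have hn' : (N1 : ℝ) ≤ n := by exact_mod_cast hn
  obtain ⟨h1, h2, h3⟩ := floor_step τ hτ0 n (hN1.trans hn')
  have hn0 : (0 : ℝ) ≤ n := Nat.cast_nonneg _
  have hτd : τ * d ≤ κ / 4 := by
    have : τ * d = κ / (16 * m) := by rw [hτ]; field_simp
    rw [this, div_le_div_iff₀ (by positivity) (by norm_num)]
    nlinarith
  have hτ1 : τ ≤ 1 := by nlinarith
  refine ⟨h1, ?_, h3, ?_, ?_⟩
  · calc κ / (32 * d * m) * n = τ * n / 2 := by rw [hτ]; field_simp; ring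
      _ ≤ _ := h2
  · have : ((⌊τ * n⌋₊ : ℕ) : ℝ) ≤ n := by nlinarith
    exact_mod_cast this
  · calc ((⌊τ * n⌋₊ : ℕ) : ℝ) * d ≤ τ * n * d := by gcongr
      _ = τ * d * n := by ring
      _ ≤ κ / 4 * n := by gcongr

theorem t_BST (hSTJ : St_STJ) (hFNJ : St_FNJ) (hVRJ : St_VRJ) (hDYJ : St_DYJ) : St_BST := by
  intro d hd C ν _ hC κ hκ hκ4 a b hgood
  have hd1 : (1 : ℝ) ≤ d := by exact_mod_cast hd
  refine ⟨?_, ?_⟩
  · -- pure point spectrum
    obtain ⟨n0, hst⟩ := hSTJ d hd C κ hκ hκ4 (d + 1) (2 * d + 2) (2 * d + 2) le_rfl (by omega)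
    obtain ⟨N1, hN1⟩ := step_choice d (d + 1) hd (by omega) κ hκ hκ4
    choose! sf hsf using hN1
    set N := max (max n0 N1) 1 with hN
    obtain ⟨n, B, hn, hB⟩ := hgood N
    obtain ⟨nn, BB, h0, h1, h2, h3⟩ := scales ν (Set.Icc a b) (fun n => dec (2 * d + 2) n)
      (fun _ n => pro κ n) sf N (fun k n hn B hB => by
        have hsn := hsf n (by omega)
        refine hst ν hC (Set.Icc a b) n (sf n) (by omega) (by exact_mod_cast hsn.1)
          (by exact_mod_cast hsn.2.1) κ κ le_rfl (by linarith) ?_ B hB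
        push_cast
        linarith) n hn B hB
    refine hFNJ d hd ν C hC a b κ hκ nn (fun k => by have := h1 k; omega) (fun k => ?_)
      (fun k => ?_) (fun k => ?_) (2 * d + 2) le_rfl BB h3
    · have := (hsf (nn k) (by have := h1 k; omega)).2.2.1
      rw [h2 k]; omega
    · have := (hsf (nn k) (by have := h1 k; omega)).2.2.2.1
      rw [h2 k]; omega
    · have h4 := (hsf (nn k) (by have := h1 k; omega)).2.2.2.2
      have h5 : nn (k + 1) - nn k = sf (nn k) := by rw [h2 k]; omega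
      rw [h5]
      exact h4
  · -- decay of the correlator
    intro a1 b1 ha1 hb1 P
    obtain ⟨P', q', nV, hvr⟩ := hVRJ d hd C a a1 b1 b ha1 hb1 P (P + d)
    set m2 : ℕ := P' + d + 1 with hm2
    set Q : ℕ := max q' (m2 + d + 1) with hQ
    obtain ⟨nA, hstA⟩ := hSTJ d hd C κ hκ hκ4 (d + 1) (2 * d + 2) Q le_rfl (by omega)
    obtain ⟨nB, hstB⟩ := hSTJ d hd C κ hκ hκ4 m2 Q Q (by omega) (by omega)
    obtain ⟨N1, hN1⟩ := step_choice d (d + 1) hd (by omega) κ hκ hκ4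
    obtain ⟨N2, hN2⟩ := step_choice d m2 hd (by omega) κ hκ hκ4
    choose! sf hsf using hN2
    set N := max (max (max nA nB) (max N1 N2)) (max nV 1) with hN
    obtain ⟨n, B, hn, hB⟩ := hgood N
    -- the first step
    obtain ⟨s, hs1, hs2, hs3, hs4, -⟩ := hN1 n (by omega)
    obtain ⟨B1, hB1⟩ := hstA ν hC (Set.Icc a b) n s (by omega) (by exact_mod_cast hs1)
      (by exact_mod_cast hs2) κ κ le_rfl (by linarith) (by push_cast; linarith) B hB
    -- the exponents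
    set P'' : ℝ := max (P' : ℝ) κ with hP''
    have hP0 : 0 ≤ P'' := (Nat.cast_nonneg P').trans (le_max_left _ _)
    set e : ℕ → ℝ := fun k => min ((5 / 4 : ℝ) ^ k * κ) P'' with he
    have he1 : ∀ k, κ ≤ e k := by
      intro k
      refine le_min ?_ (le_max_right _ _)
      have : (1 : ℝ) ≤ (5 / 4) ^ k := one_le_pow₀ (by norm_num)
      nlinarith
    have he2 : ∀ k, e (k + 1) ≤ 5 / 4 * e k := by
      intro k
      rw [he]
      simp only
      rcases le_total ((5 / 4 : ℝ) ^ k * κ) P'' with h | h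
      · rw [min_eq_left h]
        refine (min_le_left _ _).trans (le_of_eq ?_)
        ring
      · rw [min_eq_right h]
        refine (min_le_right _ _).trans ?_
        linarith
    have he3 : ∀ k, e k ≤ m2 - d - 1 / 2 := by
      intro k
      refine (min_le_right _ _).trans ?_
      rw [hm2]
      push_cast
      refine max_le (by linarith) ?_
      have : (0 : ℝ) ≤ P' := Nat.cast_nonneg _
      linarith
    have hB1' : Bg d ν (Set.Icc a b) (2 ^ (n + s)) (dec Q (n + s)) (pro (e 0) (n + s)) B1 := by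
      refine Bg_mono hB1 le_rfl (pro_mono ?_ _)
      rw [he]
      simp only [pow_zero, one_mul]
      exact min_le_left _ _
    obtain ⟨nn, BB, h0, h1, h2, h3⟩ := scales ν (Set.Icc a b) (fun n => dec Q n)
      (fun k n => pro (e k) n) sf N (fun k n hn B hB => by
        have hsn := hsf n (by omega)
        exact hstB ν hC (Set.Icc a b) n (sf n) (by omega) hsn.1 hsn.2.1 (e k) (e (k + 1)) (he1 k)
          (he2 k) (he3 (k + 1)) B hB) (n + s) (by omega) B1 hB1'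
    -- eventually the exponent is at least P'
    obtain ⟨k0, hk0⟩ : ∃ k0 : ℕ, P'' / κ < (5 / 4 : ℝ) ^ k0 :=
      pow_unbounded_of_one_lt _ (by norm_num)
    have hk : ∀ k, (P' : ℝ) ≤ e (k + k0) := by
      intro k
      refine le_min ?_ (le_max_left _ _)
      have h4 : P'' < (5 / 4 : ℝ) ^ k0 * κ := by rwa [div_lt_iff₀ hκ] at hk0
      have h5 : (5 / 4 : ℝ) ^ k0 ≤ (5 / 4 : ℝ) ^ (k + k0) :=
        pow_le_pow_right₀ (by norm_num) (by omega)
      have h6 : (P' : ℝ) ≤ P'' := le_max_left _ _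
      nlinarith
    refine hDYJ d hd ν (Set.Icc a1 b1) (fun k => nn (k + k0)) (fun k => ?_) (fun k => ?_) P
      (fun k x y hxy => ?_)
    · have := (hsf (nn (k + k0)) (by have := h1 (k + k0); omega)).2.2.1
      have h7 : nn (k + 1 + k0) = nn (k + k0) + sf (nn (k + k0)) := by
        rw [show k + 1 + k0 = k + k0 + 1 by ring, h2]
      simp only [h7]; omega
    · have := (hsf (nn (k + k0)) (by have := h1 (k + k0); omega)).2.2.2.1
      have h7 : nn (k + 1 + k0) = nn (k + k0) + sf (nn (k + k0)) := by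
        rw [show k + 1 + k0 = k + k0 + 1 by ring, h2]
      simp only [h7]; omega
    · refine hvr ν hC (nn (k + k0)) (by have := h1 (k + k0); omega) (BB (k + k0)) ?_ x y hxy
      exact Bg_mono (h3 (k + k0)) (dec_mono (le_max_left _ _) _) (pro_mono (hk k) _)

end Pool.Agent.Helper36.Tg.Bst
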