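import Pool.Agent.Helper28.Tg.Lap
import Pool.Agent.Helper28.Tg.Defs5

/-! # ESC: the energy-resolved escape probability and the total one -/

set_option autoImplicit false

open MeasureTheory Filter Topology
open scoped BigOperators ENNReal NNReal InnerProductSpace ComplexConjugate

namespace Pool.Agent.Helper36.Tg.Esc

open Pool.Agent.H4R2.LO (Zd dd bx Hg L2f IsSpec PolyB IsGen)
open Pool.Agent.H5R2.NB (UG L2 dl IsGrp PP)
open Pool.Agent.Helper28.Tg

theorem esc_univ (hPLA : St_PLA) (d : ℕ) (ν : Measure ℝ) [IsProbabilityMeasure ν]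
    (ev : (Zd d → ℝ) → UG (L2 (Zd d))) (hev : ∀ V, IsGrp (-1) V (ev V)) (T R : ℝ) (hT : 0 < T) :
    esc ev ν Set.univ T R = tail ev ν T R := by
  have : IsProbabilityMeasure (PP d ν) := by unfold PP; infer_instance
  have hε : 0 < 1 / (2 * T) := by positivity
  have hc : ∀ y : Zd d, Continuous fun p : (Zd d → ℝ) × ℝ =>
      lap (ev p.1) ((p.2 : ℂ) + (1 / (2 * T) : ℝ) * Complex.I) 0 y :=
    fun y => t_LCT d (-1) ev hev (1 / (2 * T)) hε 0 y
  set F : (Zd d → ℝ) × ℝ → Zd d → ℝ≥0∞ := fun p y =>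
    if R ≤ ‖y‖ then ‖lap (ev p.1) ((p.2 : ℂ) + (1 / (2 * T) : ℝ) * Complex.I) 0 y‖ₑ ^ 2 else 0
    with hF
  have hFm : ∀ y, Measurable fun p => F p y := by
    intro y
    rw [hF]
    simp only
    split_ifs
    · exact ((hc y).enorm.measurable).pow_const 2
    · exact measurable_const
  have hFs : Measurable fun p : (Zd d → ℝ) × ℝ => ∑' y, F p y := Measurable.tsum hFm
  have h1 : ∫⁻ E : ℝ, (∫⁻ V, (∑' y, F (V, E) y) ∂(PP d ν)) =
      ∫⁻ V, (∫⁻ E : ℝ, (∑' y, F (V, E) y)) ∂(PP d ν) := by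
    refine lintegral_lintegral_swap ?_
    exact (hFs.comp measurable_swap).aemeasurable
  have h2 : esc ev ν Set.univ T R =
      ENNReal.ofReal (1 / (2 * Real.pi * T)) * ∫⁻ E : ℝ, (∫⁻ V, (∑' y, F (V, E) y) ∂(PP d ν)) := by
    unfold esc
    rw [Measure.restrict_univ]
  rw [h2, h1, ← lintegral_const_mul' _ _ ENNReal.ofReal_ne_top]
  unfold tail
  refine lintegral_congr fun V => ?_
  have h4 : ∫⁻ E : ℝ, ∑' y, F (V, E) y = ∑' y, ∫⁻ E : ℝ, F (V, E) y :=
    lintegral_tsum fun y => ((hFm y).comp measurable_prodMk_left).aemeasurable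
  rw [h4, ← ENNReal.tsum_mul_left]
  have hu : ∀ y : Zd d, Continuous fun t : ℝ => ((ev V).U t (dl 0)) y := by
    intro y
    exact (Lap.ev y).continuous.comp ((ev V).cont' (dl 0))
  have h3 : ∀ t : ℝ, ENNReal.ofReal (Real.exp (-(t / T)) / T) *
      ∑' y : Zd d, (if R ≤ ‖y‖ then ‖((ev V).U t (dl 0)) y‖ₑ ^ 2 else 0) =
      ∑' y : Zd d, (if R ≤ ‖y‖ then ENNReal.ofReal (Real.exp (-(t / T)) / T) *
        ‖((ev V).U t (dl 0)) y‖ₑ ^ 2 else 0) := by
    intro t
    rw [← ENNReal.tsum_mul_left]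
    refine tsum_congr fun y => ?_
    split_ifs
    · rfl
    · rw [mul_zero]
  simp_rw [h3]
  rw [lintegral_tsum]
  · refine tsum_congr fun y => ?_
    rw [hF]
    simp only
    split_ifs
    · exact hPLA d (ev V) T hT 0 y
    · simp
  · intro y
    refine Measurable.aemeasurable ?_
    split_ifs
    · refine Measurable.mul ?_ (((hu y).enorm.measurable).pow_const 2)
      exact (ENNReal.continuous_ofReal.comp (by fun_prop)).measurable
    · exact measurable_const

theorem t_ESC (hPLA : St_PLA) : St_ESC := by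
  intro d ν _ ev hev T R hT
  have h := esc_univ hPLA d ν ev hev T R hT
  refine ⟨fun I => ?_, h⟩
  rw [← h]
  unfold esc
  gcongr
  exact Set.subset_univ I

end Pool.Agent.Helper36.Tg.Esc
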